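import Pool.Agent.Helper70.PS2

open Set Topology

noncomputable section

namespace Pool.Agent.Results.MP_ffb385_an.Spaceable

/-- A function `f` on `[0,1]` is infinitely differentiable on `[0,1]`, with one-sided derivatives at the
endpoints.  `IccExtend` extends `f` to the line by constants; only its values on `[0,1]` matter, since
differentiability is required within `[0,1]`. -/
def Smooth {𝕂 : Type*} [RCLike 𝕂] (f : Icc (0 : ℝ) 1 → 𝕂) : Prop :=
  ContDiffOn ℝ (⊤ : ℕ∞) (IccExtend (zero_le_one' ℝ) f) (Icc 0 1)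

/-- The `n`-th derivative of `f` within `[0,1]` at the point `x` of `[0,1]`. -/
def derivI {𝕂 : Type*} [RCLike 𝕂] (n : ℕ) (f : Icc (0 : ℝ) 1 → 𝕂) (x : Icc (0 : ℝ) 1) : 𝕂 :=
  iteratedDerivWithin n (IccExtend (zero_le_one' ℝ) f) (Icc 0 1) x

lemma Smooth.add {𝕂 : Type*} [RCLike 𝕂] {f g : Icc (0 : ℝ) 1 → 𝕂} (hf : Smooth f)
    (hg : Smooth g) : Smooth (f + g) := ContDiffOn.add hf hg

lemma Smooth.zero {𝕂 : Type*} [RCLike 𝕂] : Smooth (0 : Icc (0 : ℝ) 1 → 𝕂) :=
  contDiffOn_const (c := (0 : 𝕂))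

lemma Smooth.smul {𝕂 : Type*} [RCLike 𝕂] (a : 𝕂) {f : Icc (0 : ℝ) 1 → 𝕂} (hf : Smooth f) :
    Smooth (a • f) := ContDiffOn.const_smul a hf

lemma Smooth.continuous_derivI {𝕂 : Type*} [RCLike 𝕂] {f : Icc (0 : ℝ) 1 → 𝕂} (hf : Smooth f)
    (n : ℕ) : Continuous (derivI n f) := by
  have h := hf.continuousOn_iteratedDerivWithin (m := n)
    (by exact_mod_cast le_top) (uniqueDiffOn_Icc one_pos)
  exact continuousOn_iff_continuous_domRestrict.mp h

/-- The vector space `C^∞([0,1])` over `𝕂`. -/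
def Cinf (𝕂 : Type*) [RCLike 𝕂] : Submodule 𝕂 (Icc (0 : ℝ) 1 → 𝕂) where
  carrier := {f | Smooth f}
  add_mem' := Smooth.add
  zero_mem' := Smooth.zero
  smul_mem' a _ hf := Smooth.smul a hf

/-- The `n`-th derivative of `f` on `[0,1]`, as an element of the space `C([0,1], 𝕂)` of continuous
functions with the supremum norm. -/
def D {𝕂 : Type*} [RCLike 𝕂] (n : ℕ) (f : Cinf 𝕂) : C(Icc (0 : ℝ) 1, 𝕂) :=
  ⟨derivI n f.1, f.2.continuous_derivI n⟩

/-- The Frechet topology of `C^∞([0,1])`: the coarsest topology making every map `f ↦ D n f` into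
`C([0,1], 𝕂)` continuous, that is, uniform convergence of all derivatives. -/
abbrev cinfTopology (𝕂 : Type*) [RCLike 𝕂] : TopologicalSpace (Cinf 𝕂) :=
  ⨅ n : ℕ, TopologicalSpace.induced (D n) inferInstance

/-- The radius of convergence of the Taylor series of `f` at the point `x`. -/
def taylorRadius {𝕂 : Type*} [RCLike 𝕂] (f : Cinf 𝕂) (x : Icc (0 : ℝ) 1) : ENNReal :=
  (FormalMultilinearSeries.ofScalars 𝕂 (fun n : ℕ => D n f x / (n.factorial : 𝕂))).radius

/-- The functions whose Taylor series has radius of convergence `0` at every point of `[0,1]`. -/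
def PS (𝕂 : Type*) [RCLike 𝕂] : Set (Cinf 𝕂) := {f | ∀ x, taylorRadius f x = 0}

/-- A subset `A` of a vector space `W` over `𝕂` with topology `t` is spaceable if `A ∪ {0}` contains a
closed infinite-dimensional vector subspace of `W`. -/
def IsSpaceable (𝕂 : Type*) [RCLike 𝕂] {W : Type*} [AddCommGroup W] [Module 𝕂 W]
    (t : TopologicalSpace W) (A : Set W) : Prop :=
  ∃ V : Submodule 𝕂 W, IsClosed[t] (V : Set W) ∧ ¬ FiniteDimensional 𝕂 V ∧ (V : Set W) ⊆ A ∪ {0}

open Pool.Agent.Helper70.PS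

variable {𝕂 : Type*} [RCLike 𝕂]

omit [RCLike 𝕂] in
lemma ext_apply (f : Icc (0 : ℝ) 1 → 𝕂) {y : ℝ} (hy : y ∈ Icc (0 : ℝ) 1) :
    IccExtend (zero_le_one' ℝ) f y = f ⟨y, hy⟩ := IccExtend_of_mem _ _ hy

/-- the closed subspace -/
def V (𝕂 : Type*) [RCLike 𝕂] : Submodule 𝕂 (Cinf 𝕂) where
  carrier := {f | ∃ c : ℕ → 𝕂, (∃ C : ℝ, ∀ k, ‖c k‖ ≤ C) ∧ ∀ x : Icc (0 : ℝ) 1, f.1 x = Phi c x}
  add_mem' := by
    rintro f g ⟨c, ⟨C, hC⟩, hf⟩ ⟨c', ⟨C', hC'⟩, hg⟩
    refine ⟨fun k => c k + c' k, ⟨C + C', fun k => ?_⟩, fun x => ?_⟩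
    · exact (norm_add_le _ _).trans (add_le_add (hC k) (hC' k))
    · rw [Phi_add c c' hC hC', ← hf, ← hg]
      rfl
  zero_mem' := by
    refine ⟨fun _ => 0, ⟨0, fun k => by simp⟩, fun x => ?_⟩
    have := Phi_smul (0 : 𝕂) (fun _ => 0) x
    simp only [mul_zero, zero_mul] at this
    rw [this]
    rfl
  smul_mem' := by
    rintro a f ⟨c, ⟨C, hC⟩, hf⟩
    refine ⟨fun k => a * c k, ⟨‖a‖ * C, fun k => ?_⟩, fun x => ?_⟩
    · rw [norm_mul]
      exact mul_le_mul_of_nonneg_left (hC k) (norm_nonneg a)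
    · rw [Phi_smul, ← hf]
      rfl

lemma V_subset_PS : (V 𝕂 : Set (Cinf 𝕂)) ⊆ PS 𝕂 ∪ {0} := by
  rintro f ⟨c, ⟨C, hC⟩, hf⟩
  by_cases hc : ∀ k, c k = 0
  · right
    rw [mem_singleton_iff]
    have hc' : c = fun _ => 0 := funext hc
    apply Subtype.ext
    funext x
    rw [hf x, hc']
    have := Phi_smul (0 : 𝕂) (fun _ => 0) x
    simp only [mul_zero, zero_mul] at this
    rw [this]
    rfl
  · left
    push Not at hc
    obtain ⟨k0, hk0⟩ := hc
    intro x
    by_contra hne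
    have hpos : 0 < taylorRadius f x := pos_iff_ne_zero.mpr hne
    obtain ⟨r, hr0, hr⟩ := ENNReal.lt_iff_exists_nnreal_btwn.mp hpos
    have hr0' : 0 < (r : ℝ) := by exact_mod_cast hr0
    obtain ⟨R, _, hR⟩ := FormalMultilinearSeries.norm_mul_pow_le_of_lt_radius _ hr
    have hF : ∀ y ∈ Icc (0 : ℝ) 1, IccExtend (zero_le_one' ℝ) f.1 y = Phi c y := by
      intro y hy
      rw [ext_apply _ hy, hf]
    obtain ⟨n, hn⟩ := growth c hC (IccExtend (zero_le_one' ℝ) f.1) hF f.2 x.2 hk0 r hr0' R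
    have h := hR n
    rw [FormalMultilinearSeries.ofScalars_norm, norm_div, RCLike.norm_natCast] at h
    exact absurd hn (not_lt.mpr h)

lemma V_isClosed : IsClosed[cinfTopology 𝕂] (V 𝕂 : Set (Cinf 𝕂)) := by
  let _ := cinfTopology 𝕂
  have hD0 : Continuous (D 0 : Cinf 𝕂 → C(Icc (0 : ℝ) 1, 𝕂)) := by
    apply continuous_iInf_dom (i := 0)
    exact continuous_induced_dom
  apply isClosed_of_closure_subset
  intro f hf
  -- approximating sequence
  have happ : ∀ i : ℕ, ∃ c : ℕ → 𝕂, (∃ C : ℝ, ∀ k, ‖c k‖ ≤ C) ∧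
      ∀ x : Icc (0 : ℝ) 1, ‖Phi c x - f.1 x‖ ≤ (1 / 2 : ℝ) ^ i := by
    intro i
    have hU : {g : Cinf 𝕂 | D 0 g ∈ Metric.ball (D 0 f) ((1 / 2 : ℝ) ^ i)} ∈ 𝓝 f :=
      hD0.continuousAt.preimage_mem_nhds (Metric.ball_mem_nhds _ (by positivity))
    obtain ⟨g, hg1, hg2⟩ := mem_closure_iff_nhds.mp hf _ hU
    obtain ⟨c, hC, hg⟩ := hg2
    refine ⟨c, hC, fun x => ?_⟩
    rw [← hg x, ← dist_eq_norm]
    have h1 : D 0 g x = g.1 x := by
      simp [D, derivI]
    have h2 : D 0 f x = f.1 x := by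
      simp [D, derivI]
    rw [← h1, ← h2]
    exact (ContinuousMap.dist_apply_le_dist x).trans (Metric.mem_ball.mp hg1).le
  choose c hC hc using happ
  have hcauchy : ∀ i l k, ‖c i k - c l k‖ ≤ 2 * ((1 / 2 : ℝ) ^ i + (1 / 2 : ℝ) ^ l) := by
    intro i l k
    obtain ⟨Ci, hCi⟩ := hC i
    obtain ⟨Cl, hCl⟩ := hC l
    have hCl' : ∀ k, ‖(-1 : 𝕂) * c l k‖ ≤ Cl := by
      intro k; simpa using hCl k
    have hsum : ∀ k, ‖c i k + (-1 : 𝕂) * c l k‖ ≤ Ci + Cl := fun k =>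
      (norm_add_le _ _).trans (add_le_add (hCi k) (hCl' k))
    have key := coeff_le (fun k => c i k + (-1 : 𝕂) * c l k) hsum
      (e := (1 / 2 : ℝ) ^ i + (1 / 2 : ℝ) ^ l) (fun x hx => by
        rw [Phi_add (c i) (fun k => (-1 : 𝕂) * c l k) hCi hCl', Phi_smul]
        have h1 := hc i ⟨x, hx⟩
        have h2 := hc l ⟨x, hx⟩
        have h3 := norm_sub_le (Phi (c i) x - f.1 ⟨x, hx⟩) (Phi (c l) x - f.1 ⟨x, hx⟩)
        have h4 : Phi (c i) x - f.1 ⟨x, hx⟩ - (Phi (c l) x - f.1 ⟨x, hx⟩)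
          = Phi (c i) x + -1 * Phi (c l) x := by ring
        rw [h4] at h3
        simp only at h1 h2
        linarith) k
    simpa [sub_eq_add_neg] using key
  have hlim : ∀ k, ∃ a, Filter.Tendsto (fun i => c i k) Filter.atTop (𝓝 a) := by
    intro k
    apply cauchySeq_tendsto_of_complete
    apply cauchySeq_of_le_tendsto_0 (b := fun N : ℕ => 4 * (1 / 2 : ℝ) ^ N)
    · intro i l N hi hl
      rw [dist_eq_norm]
      refine (hcauchy i l k).trans ?_
      have h1 := half_pow_anti hi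
      have h2 := half_pow_anti hl
      linarith
    · have := (tendsto_pow_atTop_nhds_zero_of_lt_one (r := (1 / 2 : ℝ)) (by norm_num)
        (by norm_num)).const_mul 4
      simpa using this
  choose a ha using hlim
  have hdist : ∀ i k, ‖c i k - a k‖ ≤ 2 * (1 / 2 : ℝ) ^ i := by
    intro i k
    have h1 : Filter.Tendsto (fun l => ‖c i k - c l k‖) Filter.atTop (𝓝 ‖c i k - a k‖) :=
      (tendsto_const_nhds.sub (ha k)).norm
    have h2 : Filter.Tendsto (fun l : ℕ => 2 * ((1 / 2 : ℝ) ^ i + (1 / 2 : ℝ) ^ l)) Filter.atTop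
        (𝓝 (2 * ((1 / 2 : ℝ) ^ i + 0))) :=
      (tendsto_const_nhds.add (tendsto_pow_atTop_nhds_zero_of_lt_one (by norm_num)
        (by norm_num))).const_mul 2
    rw [add_zero] at h2
    exact le_of_tendsto_of_tendsto' h1 h2 (fun l => hcauchy i l k)
  obtain ⟨C0, hC0⟩ := hC 0
  have haB : ∀ k, ‖a k‖ ≤ C0 + 2 := by
    intro k
    have h1 := hdist 0 k
    have h2 := hC0 k
    have h3 : ‖a k‖ ≤ ‖c 0 k‖ + ‖c 0 k - a k‖ := by
      have := norm_sub_le (c 0 k) (c 0 k - a k)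
      simpa using this
    simp at h1
    linarith
  refine ⟨a, ⟨C0 + 2, haB⟩, fun x => ?_⟩
  have hle : ∀ i : ℕ, ‖f.1 x - Phi a x‖ ≤ 5 * (1 / 2 : ℝ) ^ i := by
    intro i
    obtain ⟨Ci, hCi⟩ := hC i
    have haB' : ∀ k, ‖(-1 : 𝕂) * a k‖ ≤ C0 + 2 := by
      intro k; simpa using haB k
    have h1 : ‖Phi (fun k => c i k + (-1 : 𝕂) * a k) x‖ ≤ 2 * (2 * (1 / 2 : ℝ) ^ i) := by
      apply Phi_norm_le
      intro k
      have := hdist i k
      simpa [sub_eq_add_neg] using this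
    rw [Phi_add (c i) (fun k => (-1 : 𝕂) * a k) hCi haB', Phi_smul] at h1
    have h2 := hc i x
    have h3 := norm_sub_le (Phi (c i) x + -1 * Phi a x) (Phi (c i) x - f.1 x)
    have h4 : Phi (c i) x + -1 * Phi a x - (Phi (c i) x - f.1 x) = f.1 x - Phi a x := by ring
    rw [h4] at h3
    linarith
  have h0 : ‖f.1 x - Phi a x‖ ≤ 0 := by
    have ht : Filter.Tendsto (fun i : ℕ => 5 * (1 / 2 : ℝ) ^ i) Filter.atTop (𝓝 (5 * 0)) :=
      (tendsto_pow_atTop_nhds_zero_of_lt_one (by norm_num) (by norm_num)).const_mul 5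
    rw [mul_zero] at ht
    exact ge_of_tendsto' ht hle
  exact sub_eq_zero.mp (norm_le_zero_iff.mp h0)

/-- the generators -/
lemma exists_gen (k : ℕ) : ∃ g : V 𝕂, ∀ x : Icc (0 : ℝ) 1,
    g.1.1 x = Phi (fun l => if l = k then (1 : 𝕂) else 0) x := by
  have hC : ∀ l, ‖(fun l => if l = k then (1 : 𝕂) else 0) l‖ ≤ 1 := by
    intro l; simp only; split_ifs <;> simp
  have hB : B (fun l => if l = k then (1 : 𝕂) else 0) = fun x => phi k x • (1 : 𝕂) := by
    funext x
    unfold B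
    rw [tsum_eq_single k]
    · simp
    · intro l hl; simp [hl]
  have hsm : ContDiff ℝ (⊤ : ℕ∞) (Phi (fun l => if l = k then (1 : 𝕂) else 0)) := by
    have : Phi (fun l => if l = k then (1 : 𝕂) else 0)
        = fun x => B (fun l => if l = k then (1 : 𝕂) else 0) x
          + G (fun l => if l = k then (1 : 𝕂) else 0) x := rfl
    rw [this, hB]
    exact ((phi_smooth k).smul contDiff_const).add (G_smooth _ hC)
  refine ⟨⟨⟨fun x => Phi (fun l => if l = k then (1 : 𝕂) else 0) x, ?_⟩, ?_⟩, ?_⟩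
  · refine hsm.contDiffOn.congr ?_
    intro y hy
    rw [ext_apply _ hy]
  · exact ⟨_, ⟨1, hC⟩, fun x => rfl⟩
  · intro x; rfl

/-- the generators are linearly independent as functions on `[0,1]` -/
lemma gen_indep : LinearIndependent 𝕂 (fun k : ℕ => (fun x : Icc (0 : ℝ) 1 =>
    Phi (fun l => if l = k then (1 : 𝕂) else 0) (x : ℝ))) := by
  rw [linearIndependent_iff']
  intro s w hw k hk
  -- the combination is `Phi` of the coefficient sequence
  have hC : ∀ l, ‖(fun l => if l ∈ s then w l else 0) l‖ ≤ ∑ i ∈ s, ‖w i‖ := by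
    intro l
    simp only
    split_ifs with h
    · exact Finset.single_le_sum (f := fun i => ‖w i‖) (fun i _ => norm_nonneg _) h
    · rw [norm_zero]; exact Finset.sum_nonneg (fun i _ => norm_nonneg _)
  have hPhi : ∀ (t : Finset ℕ) (x : ℝ), Phi (fun l => if l ∈ t then w l else 0) x
      = ∑ i ∈ t, w i * Phi (fun l => if l = i then (1 : 𝕂) else 0) x := by
    intro t x
    induction t using Finset.induction_on with
    | empty =>
      have := Phi_smul (0 : 𝕂) (fun _ => 0) x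
      simpa using this
    | insert i t hi ih =>
      rw [Finset.sum_insert hi, ← ih, ← Phi_smul]
      have hb1 : ∀ l, ‖(fun l => w i * (if l = i then (1 : 𝕂) else 0)) l‖ ≤ ‖w i‖ := by
        intro l; simp only; split_ifs <;> simp
      have hb2 : ∀ l, ‖(fun l => if l ∈ t then w l else 0) l‖ ≤ ∑ i ∈ t, ‖w i‖ := by
        intro l
        simp only
        split_ifs with h
        · exact Finset.single_le_sum (f := fun i => ‖w i‖) (fun i _ => norm_nonneg _) h
        · rw [norm_zero]; exact Finset.sum_nonneg (fun i _ => norm_nonneg _)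
      rw [← Phi_add _ _ hb1 hb2]
      congr 1
      funext l
      by_cases hl : l = i
      · subst hl; simp [hi]
      · simp [hl]
  have h0 := coeff_le (fun l => if l ∈ s then w l else 0) hC (e := 0) (fun x hx => by
    rw [hPhi s x]
    have h1 := congrFun hw ⟨x, hx⟩
    simp only [Finset.sum_apply, Pi.smul_apply, smul_eq_mul, Pi.zero_apply] at h1
    rw [h1, norm_zero]) k
  simp only [hk, if_true, mul_zero] at h0
  exact norm_le_zero_iff.mp h0

lemma V_infinite : ¬ FiniteDimensional 𝕂 (V 𝕂) := by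
  intro hfin
  choose g hg using (exists_gen (𝕂 := 𝕂))
  have hli : LinearIndependent 𝕂 g := by
    apply LinearIndependent.of_comp ((Cinf 𝕂).subtype ∘ₗ (V 𝕂).subtype)
    have : (⇑((Cinf 𝕂).subtype ∘ₗ (V 𝕂).subtype) ∘ g) = (fun k : ℕ => (fun x : Icc (0 : ℝ) 1 =>
        Phi (fun l => if l = k then (1 : 𝕂) else 0) (x : ℝ))) := by
      funext k x
      exact hg k x
    rw [this]
    exact gen_indep
  have hfin2 := hli.finite
  exact not_finite ℕ

/-- `PS` is spaceable in `C^∞([0,1])`, over `ℝ` and over `ℂ`. -/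
theorem result (𝕂 : Type*) [RCLike 𝕂] : IsSpaceable 𝕂 (cinfTopology 𝕂) (PS 𝕂) :=
  ⟨V 𝕂, V_isClosed, V_infinite, V_subset_PS⟩

end Pool.Agent.Results.MP_ffb385_an.Spaceable
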